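import Mathlib

/-!
The boundary of the unbounded component of the complement of a continuum has dimension at least one.
-/

set_option autoImplicit false

namespace Pool.Agent.U151.OB

open Set Topology Filter Metric

/-- The unbounded component of the complement of `K`. -/
def ub (K : Set ℂ) : Set ℂ := {z | z ∈ Kᶜ ∧ ¬ Bornology.IsBounded (connectedComponentIn Kᶜ z)}

/-- rotated real part -/
noncomputable def pe (e z : ℂ) : ℝ := (z * (starRingEnd ℂ) e).re

/-- rotated imaginary part -/
noncomputable def qe (e z : ℂ) : ℝ := (z * (starRingEnd ℂ) e).im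

theorem pe_add (e z : ℂ) (s : ℝ) : pe e (z + s * (Complex.I * e)) = pe e z := by
  unfold pe
  have h : (z + s * (Complex.I * e)) * (starRingEnd ℂ) e =
      z * (starRingEnd ℂ) e + ((s * Complex.normSq e : ℝ) : ℂ) * Complex.I := by
    have h1 := Complex.mul_conj e
    push_cast
    linear_combination (s * Complex.I) * h1
  rw [h, Complex.add_re]
  simp

theorem qe_add {e : ℂ} (he : ‖e‖ = 1) (z : ℂ) (s : ℝ) :
    qe e (z + s * (Complex.I * e)) = qe e z + s := by
  unfold qe
  have h : (z + s * (Complex.I * e)) * (starRingEnd ℂ) e =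
      z * (starRingEnd ℂ) e + ((s * Complex.normSq e : ℝ) : ℂ) * Complex.I := by
    have h1 := Complex.mul_conj e
    push_cast
    linear_combination (s * Complex.I) * h1
  have h2 : Complex.normSq e = 1 := by
    rw [Complex.normSq_eq_norm_sq, he, one_pow]
  rw [h, Complex.add_im, h2]
  simp

theorem pe_cont (e : ℂ) : Continuous (pe e) := by
  unfold pe
  fun_prop

theorem qe_cont (e : ℂ) : Continuous (qe e) := by
  unfold qe
  fun_prop

/-- The projections of a compact set and of its outer boundary agree. -/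
theorem proj {K : Set ℂ} (hK : IsCompact K) {e : ℂ} (he : ‖e‖ = 1) :
    pe e '' K ⊆ pe e '' frontier (ub K) := by
  rintro _ ⟨z, hz, rfl⟩
  have hc : IsCompact (K ∩ {w | pe e w = pe e z}) :=
    hK.inter_right (isClosed_eq (pe_cont e) continuous_const)
  obtain ⟨w, ⟨hwK, hw⟩, hmax⟩ := hc.exists_isMaxOn ⟨z, hz, rfl⟩ (qe_cont e).continuousOn
  have hw' : pe e w = pe e z := hw
  have hray : ∀ s : ℝ, 0 < s → w + s * (Complex.I * e) ∉ K := by
    intro s hs hmem
    have h1 := hmax ⟨hmem, by
      show pe e (w + s * (Complex.I * e)) = pe e z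
      rw [pe_add, hw']⟩
    have h2 : qe e (w + s * (Complex.I * e)) ≤ qe e w := h1
    rw [qe_add he] at h2
    linarith
  have hub : ∀ s : ℝ, 0 < s → w + s * (Complex.I * e) ∈ ub K := by
    intro s hs
    refine ⟨hray s hs, fun hb => ?_⟩
    set S : Set ℂ := (fun t : ℝ => w + t * (Complex.I * e)) '' Set.Ioi 0 with hS
    have h1 : IsPreconnected S := isPreconnected_Ioi.image _ (by fun_prop)
    have h2 : S ⊆ Kᶜ := by
      rintro _ ⟨t, ht, rfl⟩
      exact hray t ht
    have h4 := h1.subset_connectedComponentIn ⟨s, hs, rfl⟩ h2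
    obtain ⟨C, hC⟩ := (hb.subset h4).exists_norm_le
    have h5 : w + ((C + ‖w‖ + 1 : ℝ) : ℂ) * (Complex.I * e) ∈ S := by
      refine ⟨C + ‖w‖ + 1, ?_, rfl⟩
      have h6 := (norm_nonneg _).trans (hC _ ⟨s, hs, rfl⟩)
      have h7 := norm_nonneg w
      exact Set.mem_Ioi.2 (by linarith)
    have h6 := hC _ h5
    have h7 : ‖((C + ‖w‖ + 1 : ℝ) : ℂ) * (Complex.I * e)‖ = |C + ‖w‖ + 1| := by
      rw [norm_mul, norm_mul, Complex.norm_I, he, Complex.norm_real, Real.norm_eq_abs]
      ring
    have h8 : ‖((C + ‖w‖ + 1 : ℝ) : ℂ) * (Complex.I * e)‖ ≤ C + ‖w‖ := by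
      have := norm_sub_le (w + ((C + ‖w‖ + 1 : ℝ) : ℂ) * (Complex.I * e)) w
      rw [add_sub_cancel_left] at this
      linarith
    rw [h7] at h8
    have := le_abs_self (C + ‖w‖ + 1)
    linarith
  refine ⟨w, ⟨?_, ?_⟩, hw'⟩
  · rw [Metric.mem_closure_iff]
    intro ε hε
    refine ⟨_, hub (ε / 2) (by linarith), ?_⟩
    rw [dist_comm, dist_eq_norm, add_sub_cancel_left, norm_mul, norm_mul, Complex.norm_I, he,
      Complex.norm_real, Real.norm_eq_abs, abs_of_pos (by linarith)]
    linarith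
  · intro h
    exact (interior_subset h).1 hwK

theorem dim_one {K : Set ℂ} (hK : IsCompact K) (hc : IsPreconnected K) {a b : ℂ} (ha : a ∈ K)
    (hb : b ∈ K) (hab : a ≠ b) : 1 ≤ dimH (frontier (ub K)) := by
  have hn : 0 < ‖b - a‖ := norm_pos_iff.2 (sub_ne_zero.2 (Ne.symm hab))
  set e : ℂ := (b - a) / ((‖b - a‖ : ℝ) : ℂ) with he
  have hne : ((‖b - a‖ : ℝ) : ℂ) ≠ 0 := Complex.ofReal_ne_zero.2 hn.ne'
  have he1 : ‖e‖ = 1 := by
    rw [he, norm_div, Complex.norm_real, Real.norm_eq_abs, abs_of_pos hn, div_self hn.ne']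
  have hlt : pe e a < pe e b := by
    have h1 : pe e b - pe e a = ‖b - a‖ := by
      unfold pe
      rw [← Complex.sub_re, ← sub_mul]
      have h2 : (b - a) = ((‖b - a‖ : ℝ) : ℂ) * e := by
        rw [he]
        field_simp
      conv_lhs => rw [h2]
      rw [mul_assoc, Complex.mul_conj, Complex.normSq_eq_norm_sq, he1]
      simp
    linarith
  have himg : Set.Icc (pe e a) (pe e b) ⊆ pe e '' frontier (ub K) := by
    refine Set.Subset.trans ?_ (proj hK he1)
    exact (hc.image _ (pe_cont e).continuousOn).Icc_subset ⟨a, ha, rfl⟩ ⟨b, hb, rfl⟩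
  have hlip : LipschitzWith 1 (pe e) := by
    apply LipschitzWith.of_dist_le_mul
    intro x y
    unfold pe
    rw [Real.dist_eq, ← Complex.sub_re, ← sub_mul, NNReal.coe_one, one_mul, dist_eq_norm]
    refine (Complex.abs_re_le_norm _).trans ?_
    rw [norm_mul, Complex.norm_conj, he1, mul_one]
  have h1 : dimH (Set.Icc (pe e a) (pe e b)) = 1 := by
    rw [Real.dimH_of_nonempty_interior (by
      rw [interior_Icc]
      exact Set.nonempty_Ioo.2 hlt), Module.finrank_self, Nat.cast_one]
  calc (1 : ENNReal) = dimH (Set.Icc (pe e a) (pe e b)) := h1.symm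
    _ ≤ dimH (pe e '' frontier (ub K)) := dimH_mono himg
    _ ≤ dimH (frontier (ub K)) := hlip.dimH_image_le _

end Pool.Agent.U151.OB
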