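import Pool.Agent.U151.OB.Det
import Pool.Agent.U151.OB.One
import Pool.Agent.W320.PD.HB
import Pool.Agent.W822.PD.Fin

/-!
The accessible points of the limits of the closed path which traces the outer boundary of the largest
cluster: conclusion.
-/

set_option autoImplicit false

namespace Pool.Agent.U151.OB

open H974 H12S Finset H389NS H984P H984N H342P H342L H342T
open MeasureTheory Filter Topology Pool.Agent.W822.PD Pool.Agent.W462.DPL
open Pool.Agent.W424.OD Pool.Agent.TH990.FU Pool.Agent.W978.PDUL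
open scoped ENNReal

theorem le_2343 : (2/3 : ℝ≥0∞) ≤ 4/3 := by
  rw [← e43', ← Pool.Agent.W822.PD.e23]
  apply ENNReal.ofReal_le_ofReal
  norm_num

theorem lt_4374 : (4/3 : ℝ≥0∞) < 7/4 := by
  have e74 : ENNReal.ofReal (7/4) = 7/4 := by
    rw [ENNReal.ofReal_div_of_pos (by norm_num)]
    norm_num
  rw [← e43', ← e74, ENNReal.ofReal_lt_ofReal_iff (by norm_num)]
  norm_num

/-- The points of the outer boundary are accessible. -/
theorem ub_acc {f : C(unitInterval, ℂ)} (hne : ∃ s t, f s ≠ f t) :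
    frontier (ub (Set.range f)) ⊆ ⋃ i : ℕ, Acc (1 / ((i:ℝ) + 1)) f := by
  intro w hw
  have hK : IsCompact (Set.range f) := isCompact_range f.continuous
  have hw' : w ∈ oB (Set.range f) := hw
  have hwK : w ∈ Set.range f := oB_sub hK.isClosed hw'
  obtain ⟨s0, t0, hst⟩ := hne
  have h3 : ∃ u, f u ≠ w := by
    by_contra hcon
    push Not at hcon
    exact hst ((hcon s0).trans (hcon t0).symm)
  obtain ⟨u, hu⟩ := h3
  obtain ⟨i, hi⟩ := exists_nat_one_div_lt (lt_min one_pos (dist_pos.2 hu))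
  refine Set.mem_iUnion.2 ⟨i, hwK, ⟨u, (hi.le.trans (min_le_right _ _))⟩, fun r hr => ?_⟩
  obtain ⟨g, g0, g1, ζ, hζ, hg⟩ := exists_path hK hw' hr (‖w‖ + 1)
  refine ⟨g, g0, ?_, fun t ht => ?_⟩
  · have h5 : ‖g 1‖ ≤ dist (g 1) w + ‖w‖ := by
      rw [dist_eq_norm]
      have := norm_add_le (g 1 - w) w
      rwa [sub_add_cancel] at this
    have h6 := hi.le.trans (min_le_left _ _)
    linarith
  · have := hg t _ ht
    rw [dist_self] at this
    linarith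

/-- All the accessible points of the limits, and those on the boundary of the square. -/
theorem acc_all {sel : (n : ℕ) → Finset Plain.Edge → ℤ × ℤ}
    {γ : (n : ℕ) → Finset Plain.Edge → Curve} (hU : U3) (hT : Tr sel γ) {k : ℕ → ℕ}
    (hk : Tendsto k atTop atTop) {μ : ProbabilityMeasure Curve}
    (hμ : Tendsto (fun i => lawOf (k i) (γ (k i))) atTop (𝓝 μ)) :
    ∀ᵐ c ∂(μ : Measure Curve), Set.range c.path ⊆ Sqc ∧
      dimH (⋃ i : ℕ, Acc (1 / ((i:ℝ) + 1)) c.path) ≤ 4/3 ∧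
      dimH ((⋃ i : ℕ, Acc (1 / ((i:ℝ) + 1)) c.path) \ Sq) ≤ 2/3 := by
  have hpos : ∀ j : ℕ, (0:ℝ) < 1 / ((j:ℝ) + 1) := fun j => by positivity
  have h1 := acc_trace hU hT hk hμ
  have h2 : ∀ᵐ c : Curve ∂(μ : Measure Curve), ∀ j : ℕ, Set.range c.path ⊆ Sqc ∧
      dimH {z | z ∈ Set.range c.path ∧ z ∈ Sqc \ Sq ∧ ∃ u, 1 / ((j:ℝ) + 1) ≤ dist (c.path u) z} ≤
        ENNReal.ofReal (2/3) := by
    rw [ae_all_iff]
    intro j
    exact Pool.Agent.W597.PDBL.bl Pool.Agent.W320.PD.HB.hb sel γ hT k hk μ hμ _ (hpos j)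
  filter_upwards [h1, h2] with c c1 c2
  have hout : dimH ((⋃ i : ℕ, Acc (1 / ((i:ℝ) + 1)) c.path) \ Sq) ≤ 2/3 := by
    have hsub : (⋃ i : ℕ, Acc (1 / ((i:ℝ) + 1)) c.path) \ Sq ⊆ ⋃ j : ℕ,
        {z | z ∈ Set.range c.path ∧ z ∈ Sqc \ Sq ∧
          ∃ u, 1 / ((j:ℝ) + 1) ≤ dist (c.path u) z} := by
      rintro z ⟨hz, hz2⟩
      obtain ⟨j, hr, ⟨u, hu⟩, -⟩ := Set.mem_iUnion.mp hz
      exact Set.mem_iUnion.mpr ⟨j, hr, ⟨(c2 0).1 hr, hz2⟩, u, hu⟩
    refine (dimH_mono hsub).trans ?_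
    rw [dimH_iUnion]
    exact iSup_le fun j => (c2 j).2.trans (le_of_eq Pool.Agent.W822.PD.e23)
  have hin : dimH ((⋃ i : ℕ, Acc (1 / ((i:ℝ) + 1)) c.path) ∩ Sq) ≤ 4/3 := by
    rw [Set.iUnion_inter, dimH_iUnion]
    exact iSup_le c1
  refine ⟨(c2 0).1, ?_, hout⟩
  rw [← Set.inter_union_sdiff (⋃ i : ℕ, Acc (1 / ((i:ℝ) + 1)) c.path) Sq, dimH_union]
  exact max_le hin (hout.trans le_2343)

end Pool.Agent.U151.OB
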