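import Pool.Agent.TH990.FU.Geo
import Pool.Agent.W978.PD.UL
import Pool.Agent.W469.PD.Cur
import Pool.Agent.W597.PDBL

/-!
The accessible points of the limits of the closed path which traces the outer boundary of the largest
cluster: the events for the curves and the deterministic part.
-/

set_option autoImplicit false

namespace Pool.Agent.U151.OB

open H974 H12S Finset H389NS H984P H984N H342P H342L H342T
open MeasureTheory Filter Topology Pool.Agent.W822.PD Pool.Agent.W462.DPL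
open Pool.Agent.W424.OD Pool.Agent.TH990.FU Pool.Agent.W978.PDUL

theorem preC_open (z : ℂ) (r ρ ζ : ℝ) : IsOpen (Curve.path ⁻¹' Ev3 z r ρ ζ) := by
  rw [Metric.isOpen_iff]
  intro c hc
  obtain ⟨ε, hε, h⟩ := Ev3_near hc
  refine ⟨ε, hε, fun c' hcc' => ?_⟩
  rw [Metric.mem_ball, Curve.dist_def, cdist_eq] at hcc'
  obtain ⟨φ, hφ⟩ := exists_lt_of_ciInf_lt hcc'
  refine h c'.path φ.toEquiv fun x => ?_
  have h2 := ContinuousMap.dist_apply_le_dist (f := c'.path) (g := rep c.path φ) x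
  rw [rep_apply] at h2
  exact lt_of_le_of_lt h2 hφ

theorem pre3_open (z : ℂ) (r ρ : ℝ) : IsOpen (Curve.path ⁻¹' E3U z r ρ) := by
  unfold E3U
  rw [Set.preimage_iUnion]
  exact isOpen_iUnion fun j => preC_open _ _ _ _

/-- The states of a periodic orbit are an invariant set. -/
theorem orb_inv {F : Set Edg} {σ : St} {N : ℕ} (hN : 0 < N) (hper : orb F σ N = σ) (τ : St) :
    τ ∈ {τ | ∃ j, orb F σ j = τ} ↔ nxt F τ ∈ {τ | ∃ j, orb F σ j = τ} := by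
  constructor
  · rintro ⟨t, rfl⟩
    exact ⟨t + 1, orb_succ F σ t⟩
  · rintro ⟨t, ht⟩
    have h1 : orb F σ (t + N) = nxt F τ := by
      rw [orb_add, hper, ht]
    obtain ⟨m, hm⟩ : ∃ m, t + N = m + 1 := ⟨t + N - 1, by omega⟩
    rw [hm, orb_succ] at h1
    exact ⟨m, (nxt_bij _).1 h1⟩

/-- Every state of a periodic orbit is reached before the period. -/
theorem orb_lt {F : Set Edg} {σ : St} {N : ℕ} (hN : 0 < N) (hper : orb F σ N = σ) (j : ℕ) :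
    ∃ i < N, orb F σ i = orb F σ j := by
  have h1 : ∀ k, orb F σ (k * N) = σ := by
    intro k
    induction k with
    | zero => rw [zero_mul]; rfl
    | succ k ih => rw [add_mul, one_mul, orb_add, hper, ih]
  refine ⟨j % N, Nat.mod_lt _ hN, ?_⟩
  conv_rhs => rw [← Nat.mod_add_div j N, mul_comm N, orb_add, h1]

theorem zp_pt {n : ℕ} (v : Vtx) : zp (1 / (n : ℝ)) 0 v = pt n v := by
  apply Complex.ext
  · rw [pt_re]
    show (0 : ℝ) + 1 / n * v.1 = _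
    ring
  · rw [pt_im]
    show (0 : ℝ) + 1 / n * v.2 = _
    ring

theorem vz_ctc (δ : ℝ) (z : ℂ) : vz δ 0 z = ctc δ z := by
  unfold vz ctc
  rw [Complex.zero_re, Complex.zero_im, sub_zero, sub_zero]

/-- the deterministic part for the closed path -/
theorem det_trace {z : ℂ} {r d ζ : ℝ} {n : ℕ} (hn : 0 < n) (hδr : 1 / (n : ℝ) ≤ r)
    (hd : 256 * r ≤ d) (hζ : 8 * (1 / (n : ℝ)) ≤ ζ) {F : Finset Edg} {v : ℤ × ℤ} {c : Curve}
    (hT : IsTrace n F v c) (hE : c.path ∈ Ev3 z r (d / 2) ζ) :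
    A3v (ctc (1 / n) z) (⌈r / (1 / (n : ℝ))⌉₊ + 3 + 2) (⌊d / (8 * (1 / (n : ℝ)))⌋₊ - 2) ↑F ∨
      A3v (ctc (1 / n) z) (⌈r / (1 / (n : ℝ))⌉₊ + 3 + 2) (⌊d / (8 * (1 / (n : ℝ)))⌋₊ - 2)
        (dl '' (↑F : Set Edg)ᶜ) := by
  have hδ : (0:ℝ) < 1 / n := by positivity
  obtain ⟨⟨s, hs⟩, ⟨s', hs'⟩, g, hg0, hg1, hg⟩ := hE
  obtain ⟨σ, N, hN, _, _, hper, _, hpath⟩ := hT
  have hr : 0 < r := hδ.trans_le hδr
  have hd0 : 0 < d := by linarith
  have hst' : ∀ k < N, dist (pt n (orb (↑F) σ k).1) (pt n (orb (↑F) σ (k + 1)).1) ≤ 1 / (n : ℝ) :=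
    fun k _ => pt_step' hn _ σ k
  obtain ⟨i, hiN, -, hi⟩ := poly_close hN hst' s
  obtain ⟨j, hjN, -, hj⟩ := poly_close hN hst' s'
  rw [← hpath] at hi hj
  obtain ⟨g', g1, g2, g3, g4⟩ := cut g (z := z) (ρ := d / 2) (by linarith) hg1.le
  have hmain := det_gen (o := 0) (z := z) hδ hδr hd (C := (↑F : Set Edg))
    (A := {τ | ∃ j, orb (↑F) σ j = τ}) (orb_inv hN hper) hs hs' (g := g')
    (by rw [g1]; exact hg0) g2.ge ?_ (σ := orb (↑F) σ i) (τ := orb (↑F) σ j) ⟨i, rfl⟩ ?_ ?_ ?_ ?_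
  · rw [vz_ctc] at hmain
    exact hmain
  · rintro t u hu q ⟨k, hk⟩
    obtain ⟨k', hk', he⟩ := orb_lt hN hper k
    rw [hk] at he
    have h4 := hu.dist hδ
    rw [zp_pt] at h4
    obtain ⟨x, hx⟩ := Pool.Agent.W469.PD.Cur.time (j := k') hN hk'.le
    have hx2 : c.path x = pt n u := by
      rw [hpath, Pool.Agent.W469.PD.Cur.poly_at _ hN hk'.le hx, he]
    obtain ⟨t', ht'⟩ := g4 t
    have h7 := hg x t'
    rw [← ht', hx2] at h7
    linarith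
  · rw [zp_pt]
    linarith
  · rw [zp_pt]
    linarith
  · exact (pb_reach _ _ _).symm.trans (pb_reach _ _ _)
  · have h1 := (reach_dl (F := (↑F : Set Edg)ᶜ)).2 (pb_dreach (↑F) σ i)
    have h2 := (reach_dl (F := (↑F : Set Edg)ᶜ)).2 (pb_dreach (↑F) σ j)
    exact h1.symm.trans h2

/-- the probability bound for the closed path -/
theorem prob_trace (hU : U3) {sel : (n : ℕ) → Finset Plain.Edge → ℤ × ℤ}
    {γ : (n : ℕ) → Finset Plain.Edge → Curve} (hT : Tr sel γ) :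
    ∃ C : ℝ, 0 < C ∧ ∀ (z : ℂ) (r d ζ : ℝ) (n : ℕ), 0 < r → r ≤ d →
      Metric.ball z d ⊆ Sq → 0 < n → 1 / (n : ℝ) ≤ r → 8 * (1 / (n : ℝ)) ≤ ζ →
        (lawOf n (γ n) : Measure Curve) (Curve.path ⁻¹' Ev3 z r (d / 2) ζ) ≤
          ENNReal.ofReal (C * (r / d) ^ (2/3 : ℝ)) := by
  obtain ⟨Cd, hCd, hD'⟩ := u3d hU
  obtain ⟨Ca, hCa, hA'⟩ := hU
  refine ⟨(Ca + Cd + 1) * 256 ^ (2/3 : ℝ), by positivity, ?_⟩
  intro z r d ζ n hr hrd hball hn hδr hζ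
  have hδ : (0:ℝ) < 1 / n := by positivity
  have hd0 : 0 < d := hr.trans_le hrd
  rw [lawOf_apply _ _ (preC_open z r (d / 2) ζ).measurableSet]
  apply ENNReal.ofReal_le_ofReal
  have hq : 0 < r / d := by positivity
  have hRHS : (Ca + Cd + 1) * 256 ^ (2/3 : ℝ) * (r / d) ^ (2/3 : ℝ) =
      (Ca + Cd + 1) * (256 * (r / d)) ^ (2/3 : ℝ) := by
    rw [Real.mul_rpow (by norm_num) hq.le]
    ring
  rw [hRHS]
  by_cases h256 : 256 * r ≤ d
  · obtain ⟨s1, s2, s3, s4⟩ := sizes hδ hδr h256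
    obtain ⟨b1, b2, b3, b4⟩ := dom_boxC hn (by linarith) hball
    have hsub : blk (ctc (1 / n) z) ⌊d / (8 * (1 / (n : ℝ)))⌋₊ ⊆ RE 0 n 0 n :=
      RE_subset b1.le b2.le b3.le b4.le
    have hsub1 : ∀ k : ℕ, k ≤ ⌊d / (8 * (1 / (n : ℝ)))⌋₊ →
        blk (ctc (1 / n) z) k ⊆ RE 0 n 0 n := by
      intro k hk
      refine (RE_subset ?_ ?_ ?_ ?_).trans hsub <;> omega
    have h1 := hA' (ctc (1 / n) z) (⌈r / (1 / (n : ℝ))⌉₊ + 3 + 2)
      (⌊d / (8 * (1 / (n : ℝ)))⌋₊ - 2) (by omega) s2 (RE 0 n 0 n) (hsub1 _ (by omega))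
    have h2 := hD' (ctc (1 / n) z) (⌈r / (1 / (n : ℝ))⌉₊ + 3 + 2)
      (⌊d / (8 * (1 / (n : ℝ)))⌋₊ - 2) (by omega) s2 (RE 0 n 0 n) (hsub1 _ (by omega))
    have hmono : Plain.prob n (fun F => γ n F ∈ Curve.path ⁻¹' Ev3 z r (d / 2) ζ) ≤
        PQ (1/2) (RE 0 n 0 n) (fun F =>
          A3v (ctc (1 / n) z) (⌈r / (1 / (n : ℝ))⌉₊ + 3 + 2)
            (⌊d / (8 * (1 / (n : ℝ)))⌋₊ - 2) ↑F ∨
          A3v (ctc (1 / n) z) (⌈r / (1 / (n : ℝ))⌉₊ + 3 + 2)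
            (⌊d / (8 * (1 / (n : ℝ)))⌋₊ - 2) (dl '' (↑F : Set Edg)ᶜ)) := by
      refine Plain.prob_le_of_pr ?_
      intro F hF hE
      exact det_trace hn hδr h256 hζ (hT.2 n F hn hF) hE
    have hor := Pr_or_le okh (RE 0 n 0 n)
      (fun F => A3v (ctc (1 / n) z) (⌈r / (1 / (n : ℝ))⌉₊ + 3 + 2)
        (⌊d / (8 * (1 / (n : ℝ)))⌋₊ - 2) ↑F)
      (fun F => A3v (ctc (1 / n) z) (⌈r / (1 / (n : ℝ))⌉₊ + 3 + 2)
        (⌊d / (8 * (1 / (n : ℝ)))⌋₊ - 2) (dl '' (↑F : Set Edg)ᶜ))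
    have hpow : (((⌈r / (1 / (n : ℝ))⌉₊ + 3 + 2 : ℕ) : ℝ) /
        ((⌊d / (8 * (1 / (n : ℝ)))⌋₊ - 2 : ℕ) : ℝ)) ^ (2/3 : ℝ) ≤
        (256 * (r / d)) ^ (2/3 : ℝ) :=
      Real.rpow_le_rpow (by positivity) s4 (by norm_num)
    have hx0 : 0 ≤ (256 * (r / d)) ^ (2/3 : ℝ) := by positivity
    have h3 := mul_le_mul_of_nonneg_left hpow hCa.le
    have h4 := mul_le_mul_of_nonneg_left hpow hCd.le
    have h5 := hmono.trans (hor.trans (add_le_add (h1.trans h3) (h2.trans h4)))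
    refine h5.trans ?_
    nlinarith
  · push Not at h256
    have h1 : Plain.prob n (fun F => γ n F ∈ Curve.path ⁻¹' Ev3 z r (d / 2) ζ) ≤ 1 := by
      rw [Plain.prob_eq]
      exact Pr_le_one okh _ _
    refine h1.trans ?_
    have h2 : 1 ≤ 256 * (r / d) := by
      rw [← mul_div_assoc, le_div_iff₀ hd0]
      linarith
    have h3 : 1 ≤ (256 * (r / d)) ^ (2/3 : ℝ) := Real.one_le_rpow h2 (by norm_num)
    nlinarith

/-- The accessible points of the limits of the closed path, in the open square. -/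
theorem acc_trace (hU : U3) {sel : (n : ℕ) → Finset Plain.Edge → ℤ × ℤ}
    {γ : (n : ℕ) → Finset Plain.Edge → Curve} (hT : Tr sel γ) {k : ℕ → ℕ}
    (hk : Tendsto k atTop atTop) {μ : ProbabilityMeasure Curve}
    (hμ : Tendsto (fun i => lawOf (k i) (γ (k i))) atTop (𝓝 μ)) :
    ∀ᵐ c ∂(μ : Measure Curve), ∀ i : ℕ, dimH (Acc (1 / ((i:ℝ) + 1)) c.path ∩ Sq) ≤ 4/3 := by
  obtain ⟨C, hC, hP⟩ := prob_trace hU hT
  refine acc_dim (pf := Curve.path) (fun z r ρ => pre3_open z r ρ) Sq_open Sq_bdd hC ?_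
  intro z r d hr hrd hball
  have hmono : Monotone (fun j : ℕ => Curve.path ⁻¹' Ev3 z r (d / 2) (1 / ((j:ℝ) + 1))) :=
    fun i j hij c hc => Ev3_anti (Nat.one_div_le_one_div hij) hc
  have h : Curve.path ⁻¹' E3U z r (d / 2) =
      ⋃ j : ℕ, Curve.path ⁻¹' Ev3 z r (d / 2) (1 / ((j:ℝ) + 1)) := by
    unfold E3U
    rw [Set.preimage_iUnion]
  rw [h, hmono.measure_iUnion]
  refine iSup_le fun j => ?_
  refine (ProbabilityMeasure.le_liminf_measure_open_of_tendsto hμ (preC_open _ _ _ _)).trans ?_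
  refine liminf_le_of_frequently_le (Eventually.frequently ?_)
  have hpos : 0 < min r (1 / ((j:ℝ) + 1) / 8) := lt_min hr (by positivity)
  have hinv : Tendsto (fun i => 1 / ((k i : ℕ) : ℝ)) atTop (𝓝 0) :=
    tendsto_one_div_atTop_nhds_zero_nat.comp hk
  filter_upwards [hinv.eventually (gt_mem_nhds hpos), hk.eventually_ge_atTop 1] with i hi hi1
  have k1 := hi.le.trans (min_le_left _ _)
  have k3 := hi.le.trans (min_le_right _ _)
  exact hP z r d _ (k i) hr hrd hball hi1 k1 (by linarith)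

end Pool.Agent.U151.OB
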